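import Mathlib
set_option autoImplicit false

namespace Pool.Agent.Results.MP_02fb88_co.FamilyAbundance

open Finset

/-- `T` is a set of pairwise edge-disjoint triangles of `G` -/
def EdgeDisjointTris {V : Type} (G : SimpleGraph V) (T : Finset (Finset V)) : Prop :=
  (∀ t ∈ T, G.IsNClique 3 t) ∧
    ∀ s ∈ T, ∀ t ∈ T, s ≠ t → ∀ x y, x ≠ y → ¬ (x ∈ s ∧ y ∈ s ∧ x ∈ t ∧ y ∈ t)

/-- `G` is `ε`-far from triangle-free: it cannot be made triangle-free by deleting fewer than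
`ε n²` edges -/
def Far {n : ℕ} (G : SimpleGraph (Fin n)) (ε : ℝ) : Prop :=
  ∀ S : Finset (Sym2 (Fin n)), (S.card : ℝ) < ε * (n : ℝ) ^ 2 →
    ¬ (G.deleteEdges (S : Set (Sym2 (Fin n)))).CliqueFree 3

/-- triangle-abundant graphs -/
def Abundant {k : ℕ} (H : SimpleGraph (Fin k)) : Prop :=
  ∃ C : ℝ, 0 < C ∧ ∀ ε : ℝ, 0 < ε → ε < 1 → ∃ n₀ : ℕ, ∀ n ≥ n₀, ∀ G : SimpleGraph (Fin n),
    Far G ε → ε ^ C * (n : ℝ) ^ k ≤ G.copyCount H

/-- triangle-abundant families of graphs -/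
def FamilyAbundant (𝓕 : Set (Σ k : ℕ, SimpleGraph (Fin k))) : Prop :=
  ∃ C : ℝ, 0 < C ∧ ∀ ε : ℝ, 0 < ε → ε < 1 → ∃ n₀ : ℕ, ∀ n ≥ n₀, ∀ G : SimpleGraph (Fin n),
    (∃ T : Finset (Finset (Fin n)), EdgeDisjointTris G T ∧ ε * (n : ℝ) ^ 2 ≤ T.card) →
      ∃ F ∈ 𝓕, ε ^ C * (n : ℝ) ^ F.1 ≤ G.copyCount F.2

/-! ### homomorphism counts -/

/-- homomorphisms as functions -/
abbrev Hm {W V : Type} (F : SimpleGraph W) (G : SimpleGraph V) : Type :=
  {f : W → V // ∀ a b, F.Adj a b → G.Adj (f a) (f b)}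

/-- number of homomorphisms -/
noncomputable def hc {W V : Type} (F : SimpleGraph W) (G : SimpleGraph V) : ℕ := Nat.card (Hm F G)

/-- the tensor product -/
def tens {V W : Type} (G : SimpleGraph V) (H : SimpleGraph W) : SimpleGraph (V × W) where
  Adj p q := G.Adj p.1 q.1 ∧ H.Adj p.2 q.2
  symm := ⟨fun _ _ h => ⟨h.1.symm, h.2.symm⟩⟩
  loopless := ⟨fun _ h => h.1.ne rfl⟩

lemma hc_tens {U V W : Type} (F : SimpleGraph U) (G : SimpleGraph V) (H : SimpleGraph W) :
    hc F (tens G H) = hc F G * hc F H := by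
  unfold hc
  rw [← Nat.card_prod]
  exact Nat.card_congr
    { toFun := fun f => (⟨fun u => (f.1 u).1, fun a b h => (f.2 a b h).1⟩,
        ⟨fun u => (f.1 u).2, fun a b h => (f.2 a b h).2⟩)
      invFun := fun p => ⟨fun u => (p.1.1 u, p.2.1 u), fun a b h => ⟨p.1.2 a b h, p.2.2 a b h⟩⟩
      left_inv := fun f => rfl
      right_inv := fun p => rfl }

lemma hc_le {U V : Type} [Finite U] [Finite V] (F : SimpleGraph U) (G : SimpleGraph V) :
    hc F G ≤ (Nat.card V) ^ (Nat.card U) := by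
  unfold hc
  rw [← Nat.card_fun]
  exact Finite.card_subtype_le _

lemma hc_dom {U U' V : Type} (F : SimpleGraph U) (F' : SimpleGraph U') (e : F ≃g F')
    (G : SimpleGraph V) : hc F G = hc F' G := by
  unfold hc
  exact Nat.card_congr
    { toFun := fun f => ⟨fun u => f.1 (e.symm u), fun a b h => f.2 _ _ (e.symm.map_adj_iff.2 h)⟩
      invFun := fun f => ⟨fun u => f.1 (e u), fun a b h => f.2 _ _ (e.map_adj_iff.2 h)⟩
      left_inv := fun f => by ext u; simp
      right_inv := fun f => by ext u; simp }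

lemma hc_cod {U V V' : Type} (F : SimpleGraph U) (G : SimpleGraph V) (G' : SimpleGraph V')
    (e : V ≃ V') (he : ∀ a b, G.Adj a b ↔ G'.Adj (e a) (e b)) : hc F G = hc F G' := by
  unfold hc
  exact Nat.card_congr
    { toFun := fun f => ⟨fun u => e (f.1 u), fun a b h => (he _ _).1 (f.2 a b h)⟩
      invFun := fun f => ⟨fun u => e.symm (f.1 u), fun a b h => (he _ _).2 (by
        rw [e.apply_symm_apply, e.apply_symm_apply]; exact f.2 a b h)⟩
      left_inv := fun f => by ext u; simp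
      right_inv := fun f => by ext u; simp }

/-- non-isolated vertices -/
def sup {U : Type} (F : SimpleGraph U) : Set U := {v | ∃ w, F.Adj v w}

/-- `F` without its isolated vertices -/
def core {U : Type} (F : SimpleGraph U) : SimpleGraph (sup F) := F.induce (sup F)

open Classical in
lemma hc_core {U V : Type} [Finite U] (F : SimpleGraph U) (G : SimpleGraph V) :
    hc F G = hc (core F) G * (Nat.card V) ^ (Nat.card ((sup F)ᶜ : Set U)) := by
  unfold hc
  rw [← Nat.card_fun, ← Nat.card_prod]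
  exact Nat.card_congr
    { toFun := fun f => (⟨fun u => f.1 u.1, fun a b h => f.2 _ _ h⟩, fun u => f.1 u.1)
      invFun := fun p => ⟨fun u => if h : u ∈ sup F then p.1.1 ⟨u, h⟩ else p.2 ⟨u, h⟩, fun a b h => by
        have ha : a ∈ sup F := ⟨b, h⟩
        have hb : b ∈ sup F := ⟨a, h.symm⟩
        beta_reduce
        rw [dif_pos ha, dif_pos hb]
        exact p.1.2 _ _ h⟩
      left_inv := fun f => by
        ext u
        simp only
        split_ifs <;> rfl
      right_inv := fun p => by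
        apply Prod.ext
        · ext u
          simp only
          rw [dif_pos u.2]
        · ext u
          simp only
          rw [dif_neg u.2] }

/-- adding isolated vertices -/
lemma hc_pad {U V W : Type} [Finite U] [Finite V] (F : SimpleGraph U) (G : SimpleGraph V) :
    hc (core F) (G ⊕g (⊥ : SimpleGraph W)) ≤ hc (core F) G := by
  unfold hc
  have key : ∀ f : Hm (core F) (G ⊕g (⊥ : SimpleGraph W)), ∀ u, ∃ v, f.1 u = Sum.inl v := by
    intro f u
    obtain ⟨w, hw⟩ := u.2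
    have h2 : (core F).Adj u ⟨w, ⟨u.1, hw.symm⟩⟩ := hw
    have h3 := f.2 _ _ h2
    rcases h4 : f.1 u with v | v
    · exact ⟨v, rfl⟩
    · exfalso
      rw [h4] at h3
      rcases h5 : f.1 ⟨w, ⟨u.1, hw.symm⟩⟩ with v' | v'
      · rw [h5] at h3; simp at h3
      · rw [h5] at h3; simp at h3
  choose g hg using key
  have hfin : Finite (Hm (core F) G) := inferInstance
  apply Nat.card_le_card_of_injective (fun f => (⟨fun u => g f u, fun a b h => by
    have := f.2 a b h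
    rw [hg, hg] at this
    simpa using this⟩ : Hm (core F) G))
  intro f f' h
  apply Subtype.ext
  funext u
  rw [hg, hg]
  congr 1
  have := congrArg (fun k => k.1 u) h
  exact this

lemma copy_le_hc {k n : ℕ} (F : SimpleGraph (Fin k)) (G : SimpleGraph (Fin n)) :
    G.copyCount F ≤ hc F G := by
  classical
  refine (SimpleGraph.copyCount_le_labelledCopyCount).trans ?_
  unfold SimpleGraph.labelledCopyCount hc
  refine (le_of_eq (@Nat.card_eq_fintype_card _ (_)).symm).trans ?_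
  apply Nat.card_le_card_of_injective (fun c : SimpleGraph.Copy F G =>
    (⟨fun u => c u, fun a b h => c.toHom.map_adj h⟩ : Hm F G))
  intro c c' h
  have h2 : ∀ u, c u = c' u := fun u => congrArg (fun k => k.1 u) h
  exact DFunLike.ext _ _ h2

lemma card_eq_eq {k n : ℕ} (i j : Fin k) (hij : i ≠ j) :
    (univ.filter fun f : Fin k → Fin n => f i = f j).card = n ^ (k - 1) := by
  have h1 : (univ.filter fun f : Fin k → Fin n => f i = f j).card =
      (univ : Finset ({l : Fin k // l ≠ j} → Fin n)).card := by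
    refine Finset.card_bij' (fun c _ => fun l => c l.1)
      (fun g _ => fun l => if h : l = j then g ⟨i, hij⟩ else g ⟨l, h⟩) ?_ ?_ ?_ ?_
    · intro c _
      exact Finset.mem_univ _
    · intro g _
      rw [Finset.mem_filter]
      refine ⟨Finset.mem_univ _, ?_⟩
      simp [hij]
    · intro c hc
      rw [Finset.mem_filter] at hc
      funext l
      by_cases h : l = j
      · subst h; simp [hc.2]
      · simp [h]
    · intro g _
      funext l
      simp [l.2]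
  rw [h1, Finset.card_univ, Fintype.card_fun, Fintype.card_fin]
  congr 1
  rw [Fintype.card_subtype_compl]
  simp

lemma hc_le_copy {k n : ℕ} (F : SimpleGraph (Fin k)) (G : SimpleGraph (Fin n)) :
    hc F G ≤ k.factorial * G.copyCount F + k ^ 2 * n ^ (k - 1) := by
  classical
  unfold hc
  rw [Nat.card_eq_fintype_card, Fintype.card_subtype]
  set S : Finset (Fin k → Fin n) := univ.filter fun f => ∀ a b, F.Adj a b → G.Adj (f a) (f b) with hS
  have h1 : S.card = (S.filter fun f => Function.Injective f).card +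
      (S.filter fun f => ¬ Function.Injective f).card :=
    (Finset.card_filter_add_card_filter_not _).symm
  have h2 : (S.filter fun f => ¬ Function.Injective f).card ≤ k ^ 2 * n ^ (k - 1) := by
    have hsub : (S.filter fun f => ¬ Function.Injective f) ⊆
        ((univ : Finset (Fin k × Fin k)).filter (fun p => p.1 ≠ p.2)).biUnion
          (fun p => univ.filter fun f : Fin k → Fin n => f p.1 = f p.2) := by
      intro f hf
      rw [Finset.mem_filter] at hf
      obtain ⟨a, b, hab, hne⟩ : ∃ a b, f a = f b ∧ a ≠ b := by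
        have := hf.2
        unfold Function.Injective at this
        push Not at this
        exact this
      rw [Finset.mem_biUnion]
      exact ⟨(a, b), by simpa using hne, by simpa using hab⟩
    refine (Finset.card_le_card hsub).trans ?_
    refine (Finset.card_biUnion_le_card_mul _ _ (n ^ (k - 1)) ?_).trans ?_
    · intro p hp
      rw [Finset.mem_filter] at hp
      rw [card_eq_eq _ _ hp.2]
    · apply Nat.mul_le_mul_right
      calc _ ≤ (univ : Finset (Fin k × Fin k)).card := Finset.card_filter_le _ _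
        _ = k ^ 2 := by rw [Finset.card_univ, Fintype.card_prod, Fintype.card_fin, sq]
  have h3 : (S.filter fun f => Function.Injective f).card ≤ k.factorial * G.copyCount F := by
    -- as copies
    have e1 : (S.filter fun f => Function.Injective f).card ≤
        (univ : Finset (SimpleGraph.Copy F G)).card := by
      apply Finset.card_le_card_of_surjOn (fun c : SimpleGraph.Copy F G => (fun u => c u))
      intro f hf
      rw [Finset.mem_coe, Finset.mem_filter, hS, Finset.mem_filter] at hf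
      exact ⟨⟨⟨f, fun {a b} h => hf.1.2 a b h⟩, hf.2⟩, by simp, rfl⟩
    refine e1.trans ?_
    rw [SimpleGraph.copyCount_eq_card_image_copyToSubgraph]
    apply Finset.card_le_mul_card_image
    intro S' hS'
    obtain ⟨c0, -, rfl⟩ := Finset.mem_image.1 hS'
    -- the fibre
    have e2 : Fintype.card {v // v ∈ Set.range c0} = k := by
      have := Fintype.card_congr (Equiv.ofInjective c0 c0.injective)
      rw [Fintype.card_fin] at this
      exact this.symm
    have hr : ∀ c : SimpleGraph.Copy F G, c.toSubgraph.verts = Set.range c := by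
      intro c
      ext v
      simp [SimpleGraph.Copy.toSubgraph]
    have e3 : (univ.filter fun c : SimpleGraph.Copy F G => c.toSubgraph = c0.toSubgraph).card ≤
        (univ : Finset (Fin k ↪ {v // v ∈ Set.range c0})).card := by
      apply Finset.card_le_card_of_injOn (fun c : SimpleGraph.Copy F G =>
        if h : Set.range c ⊆ Set.range c0 then
          (⟨fun u => ⟨c u, h ⟨u, rfl⟩⟩, fun a b hab => c.injective (congrArg Subtype.val hab)⟩ :
            Fin k ↪ {v // v ∈ Set.range c0})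
        else ⟨fun u => ⟨c0 u, ⟨u, rfl⟩⟩, fun a b hab => c0.injective (congrArg Subtype.val hab)⟩)
      · intro c _
        exact Finset.mem_coe.2 (Finset.mem_univ _)
      · intro c hc c' hc' h
        rw [Finset.mem_coe, Finset.mem_filter] at hc hc'
        have r1 : Set.range c ⊆ Set.range c0 := by rw [← hr, ← hr, hc.2]
        have r2 : Set.range c' ⊆ Set.range c0 := by rw [← hr, ← hr, hc'.2]
        simp only [dif_pos r1, dif_pos r2] at h
        apply DFunLike.ext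
        intro u
        have := congrArg (fun φ : Fin k ↪ {v // v ∈ Set.range c0} => (φ u).1) h
        exact this
    refine e3.trans ?_
    rw [Finset.card_univ, Fintype.card_embedding_eq, e2, Fintype.card_fin, Nat.descFactorial_self]
  rw [h1]
  exact Nat.add_le_add h3 h2


/-! ### edge-disjoint triangles -/

lemma edt_map {V W : Type} {G : SimpleGraph V} {H : SimpleGraph W} (φ : V ↪ W)
    (hφ : ∀ a b, G.Adj a b → H.Adj (φ a) (φ b)) {T : Finset (Finset V)} (hT : EdgeDisjointTris G T) :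
    ∃ T' : Finset (Finset W), EdgeDisjointTris H T' ∧ T'.card = T.card := by
  classical
  refine ⟨T.image (fun t => t.map φ), ⟨?_, ?_⟩, ?_⟩
  · intro t' ht'
    obtain ⟨t, ht, rfl⟩ := Finset.mem_image.1 ht'
    have h1 := hT.1 t ht
    rw [SimpleGraph.isNClique_iff, SimpleGraph.isClique_iff] at h1 ⊢
    refine ⟨?_, by rw [Finset.card_map]; exact h1.2⟩
    intro x hx y hy hxy
    rw [Finset.coe_map] at hx hy
    obtain ⟨a, ha, rfl⟩ := hx
    obtain ⟨b, hb, rfl⟩ := hy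
    exact hφ _ _ (h1.1 ha hb (fun h => hxy (by rw [h])))
  · intro s' hs' t' ht' hne x y hxy
    obtain ⟨s, hs, rfl⟩ := Finset.mem_image.1 hs'
    obtain ⟨t, ht, rfl⟩ := Finset.mem_image.1 ht'
    rintro ⟨h1, h2, h3, h4⟩
    rw [Finset.mem_map] at h1 h2 h3 h4
    obtain ⟨a, ha, rfl⟩ := h1
    obtain ⟨b, hb, rfl⟩ := h2
    obtain ⟨a', ha', e1⟩ := h3
    obtain ⟨b', hb', e2⟩ := h4
    have e1' := φ.injective e1
    have e2' := φ.injective e2
    subst e1' e2'
    exact hT.2 s hs t ht (fun h => hne (by rw [h])) _ _ (fun h => hxy (by rw [h])) ⟨ha, hb, ha', hb'⟩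
  · apply Finset.card_image_of_injective
    exact Finset.map_injective φ

lemma edt_tens {V W : Type} {G : SimpleGraph V} {H : SimpleGraph W} {T : Finset (Finset V)}
    {T' : Finset (Finset W)} (hT : EdgeDisjointTris G T) (hT' : EdgeDisjointTris H T') :
    ∃ T'' : Finset (Finset (V × W)), EdgeDisjointTris (tens G H) T'' ∧ T''.card = T.card * T'.card := by
  classical
  rcases (T ×ˢ T').eq_empty_or_nonempty with hemp | ⟨p0, hp0⟩
  · refine ⟨∅, ⟨fun t ht => absurd ht (Finset.notMem_empty _),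
        fun t ht => absurd ht (Finset.notMem_empty _)⟩, ?_⟩
    rw [← Finset.card_product, hemp, Finset.card_empty, Finset.card_empty]
  have hW : Nonempty W := by
    rw [Finset.mem_product] at hp0
    have c2 : p0.2.card = 3 := (hT'.1 _ hp0.2).card_eq
    obtain ⟨w, _⟩ := Finset.card_pos.1 (by omega : 0 < p0.2.card)
    exact ⟨w⟩
  have hex : ∀ p : Finset V × Finset W, p.1 ∈ T → p.2 ∈ T' → ∃ f : V → W,
      Set.BijOn f (p.1 : Set V) (p.2 : Set W) := by
    intro p h1 h2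
    have c1 : p.1.card = 3 := (hT.1 _ h1).card_eq
    have c2 : p.2.card = 3 := (hT'.1 _ h2).card_eq
    exact (Finset.finite_toSet p.1).exists_bijOn_of_encard_eq
      (t := (p.2 : Set W)) (by rw [Set.encard_coe_eq_coe_finsetCard, Set.encard_coe_eq_coe_finsetCard, c1, c2])
  choose! f hf using hex
  let Φ : Finset V × Finset W → Finset (V × W) := fun p => p.1.image (fun x => (x, f p x))
  have hmem : ∀ p : Finset V × Finset W, ∀ q : V × W, q ∈ Φ p ↔ q.1 ∈ p.1 ∧ q.2 = f p q.1 := by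
    intro p q
    simp only [Φ, Finset.mem_image]
    constructor
    · rintro ⟨x, hx, rfl⟩; exact ⟨hx, rfl⟩
    · rintro ⟨hx, h⟩; exact ⟨q.1, hx, by rw [← h]⟩
  have hdis : ∀ p ∈ T ×ˢ T', ∀ q ∈ T ×ˢ T', ∀ x y : V × W, x ≠ y →
      (x ∈ Φ p ∧ y ∈ Φ p ∧ x ∈ Φ q ∧ y ∈ Φ q) → p = q := by
    intro p hp q hq x y hxy ⟨h1, h2, h3, h4⟩
    rw [Finset.mem_product] at hp hq
    rw [hmem] at h1 h2 h3 h4
    have hne1 : x.1 ≠ y.1 := by
      intro h
      apply hxy
      apply Prod.ext h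
      rw [h1.2, h2.2, h]
    have hb1 := hf p hp.1 hp.2
    have hb2 := hf q hq.1 hq.2
    have hne2 : x.2 ≠ y.2 := by
      rw [h1.2, h2.2]
      exact fun h => hne1 (hb1.injOn h1.1 h2.1 h)
    have m1 : x.2 ∈ p.2 := by rw [h1.2]; exact hb1.mapsTo h1.1
    have m2 : y.2 ∈ p.2 := by rw [h2.2]; exact hb1.mapsTo h2.1
    have m3 : x.2 ∈ q.2 := by rw [h3.2]; exact hb2.mapsTo h3.1
    have m4 : y.2 ∈ q.2 := by rw [h4.2]; exact hb2.mapsTo h4.1
    apply Prod.ext
    · by_contra hcon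
      exact hT.2 _ hp.1 _ hq.1 hcon _ _ hne1 ⟨h1.1, h2.1, h3.1, h4.1⟩
    · by_contra hcon
      exact hT'.2 _ hp.2 _ hq.2 hcon _ _ hne2 ⟨m1, m2, m3, m4⟩
  have hcard : ∀ p ∈ T ×ˢ T', (Φ p).card = 3 := by
    intro p hp
    rw [Finset.mem_product] at hp
    simp only [Φ]
    rw [Finset.card_image_of_injective _ (fun a b h => (Prod.mk.inj h).1)]
    exact (hT.1 _ hp.1).card_eq
  refine ⟨(T ×ˢ T').image Φ, ⟨?_, ?_⟩, ?_⟩
  · intro t ht
    obtain ⟨p, hp, rfl⟩ := Finset.mem_image.1 ht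
    rw [SimpleGraph.isNClique_iff, SimpleGraph.isClique_iff]
    refine ⟨?_, hcard p hp⟩
    intro x hx y hy hxy
    rw [Finset.mem_coe, hmem] at hx hy
    rw [Finset.mem_product] at hp
    have hne1 : x.1 ≠ y.1 := by
      intro h
      apply hxy
      apply Prod.ext h
      rw [hx.2, hy.2, h]
    have hb1 := hf p hp.1 hp.2
    have hne2 : x.2 ≠ y.2 := by
      rw [hx.2, hy.2]
      exact fun h => hne1 (hb1.injOn hx.1 hy.1 h)
    have m1 : x.2 ∈ p.2 := by rw [hx.2]; exact hb1.mapsTo hx.1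
    have m2 : y.2 ∈ p.2 := by rw [hy.2]; exact hb1.mapsTo hy.1
    exact ⟨(hT.1 _ hp.1).isClique hx.1 hy.1 hne1, (hT'.1 _ hp.2).isClique m1 m2 hne2⟩
  · intro s hs t ht hne x y hxy hall
    obtain ⟨p, hp, rfl⟩ := Finset.mem_image.1 hs
    obtain ⟨q, hq, rfl⟩ := Finset.mem_image.1 ht
    apply hne
    rw [hdis p hp q hq x y hxy hall]
  · rw [Finset.card_image_of_injOn, Finset.card_product]
    intro p hp q hq h
    have h3 := hcard p hp
    have h1 : 1 < (Φ p).card := by omega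
    obtain ⟨x, hx, y, hy, hxy⟩ := Finset.one_lt_card.1 h1
    exact hdis p hp q hq x y hxy ⟨hx, hy, h ▸ hx, h ▸ hy⟩

/-- the complete tripartite graph with classes of size `b + 1` -/
def K3 (b : ℕ) : SimpleGraph (Fin 3 × ZMod (b + 1)) where
  Adj p q := p.1 ≠ q.1
  symm := ⟨fun _ _ h => h.symm⟩
  loopless := ⟨fun _ h => h rfl⟩

lemma edt_K3 (b : ℕ) : ∃ T, EdgeDisjointTris (K3 b) T ∧ T.card = (b + 1) ^ 2 := by
  classical
  let g : ZMod (b + 1) × ZMod (b + 1) → Fin 3 → ZMod (b + 1) := fun p => ![p.1, p.2, p.1 + p.2]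
  let Φ : ZMod (b + 1) × ZMod (b + 1) → Finset (Fin 3 × ZMod (b + 1)) := fun p =>
    univ.image (fun i => (i, g p i))
  have hmem : ∀ p, ∀ q : Fin 3 × ZMod (b + 1), q ∈ Φ p ↔ q.2 = g p q.1 := by
    intro p q
    simp only [Φ, Finset.mem_image, Finset.mem_univ, true_and]
    constructor
    · rintro ⟨i, rfl⟩; rfl
    · intro h; exact ⟨q.1, by rw [← h]⟩
  have hdis : ∀ p q, ∀ x y : Fin 3 × ZMod (b + 1), x ≠ y →
      (x ∈ Φ p ∧ y ∈ Φ p ∧ x ∈ Φ q ∧ y ∈ Φ q) → p = q := by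
    intro p q x y hxy ⟨h1, h2, h3, h4⟩
    rw [hmem] at h1 h2 h3 h4
    have hne : x.1 ≠ y.1 := by
      intro h
      apply hxy
      apply Prod.ext h
      rw [h1, h2, h]
    have e1 : g p x.1 = g q x.1 := by rw [← h1, ← h3]
    have e2 : g p y.1 = g q y.1 := by rw [← h2, ← h4]
    obtain ⟨x1, x2⟩ := x
    obtain ⟨y1, y2⟩ := y
    obtain ⟨p1, p2⟩ := p
    obtain ⟨q1, q2⟩ := q
    simp only at e1 e2 hne
    rw [Prod.mk.injEq]
    fin_cases x1 <;> fin_cases y1 <;> simp [g] at e1 e2 hne ⊢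
    · exact ⟨e1, e2⟩
    · refine ⟨e1, ?_⟩
      rw [e1] at e2
      exact add_left_cancel e2
    · exact ⟨e2, e1⟩
    · refine ⟨?_, e1⟩
      rw [e1] at e2
      exact add_right_cancel e2
    · refine ⟨e2, ?_⟩
      rw [e2] at e1
      exact add_left_cancel e1
    · refine ⟨?_, e2⟩
      rw [e2] at e1
      exact add_right_cancel e1
  have hcard : ∀ p, (Φ p).card = 3 := by
    intro p
    simp only [Φ]
    rw [Finset.card_image_of_injective _ (fun a b h => (Prod.mk.inj h).1)]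
    simp
  refine ⟨univ.image Φ, ⟨?_, ?_⟩, ?_⟩
  · intro t ht
    obtain ⟨p, -, rfl⟩ := Finset.mem_image.1 ht
    rw [SimpleGraph.isNClique_iff, SimpleGraph.isClique_iff]
    refine ⟨?_, hcard p⟩
    intro x hx y hy hxy
    rw [Finset.mem_coe, hmem] at hx hy
    intro h
    apply hxy
    apply Prod.ext h
    rw [hx, hy, h]
  · intro s hs t ht hne x y hxy hall
    obtain ⟨p, -, rfl⟩ := Finset.mem_image.1 hs
    obtain ⟨q, -, rfl⟩ := Finset.mem_image.1 ht
    apply hne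
    rw [hdis p q x y hxy hall]
  · rw [Finset.card_image_of_injective, Finset.card_univ, Fintype.card_prod, ZMod.card, sq]
    intro p q h
    have h3 := hcard p
    have h1 : 1 < (Φ p).card := by omega
    obtain ⟨x, hx, y, hy, hxy⟩ := Finset.one_lt_card.1 h1
    exact hdis p q x y hxy ⟨hx, hy, h ▸ hx, h ▸ hy⟩

lemma card_edges_tri {V : Type} [DecidableEq V] (t : Finset V) (ht : t.card = 3) :
    (t.offDiag.image (fun p => s(p.1, p.2))).card = 3 := by
  have := Sym2.card_image_offDiag t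
  rw [ht] at this
  have h2 : (fun p : V × V => s(p.1, p.2)) = Function.uncurry Sym2.mk := rfl
  rw [h2, this]
  rfl

/-- a maximal family of edge-disjoint triangles -/
lemma greedy {n : ℕ} (G : SimpleGraph (Fin n)) (ε : ℝ) (h : Far G ε) :
    ∃ T, EdgeDisjointTris G T ∧ ε * (n : ℝ) ^ 2 ≤ 3 * T.card := by
  classical
  obtain ⟨T, hT, hmax⟩ := Finset.exists_max_image
    ((univ : Finset (Finset (Finset (Fin n)))).filter fun T => EdgeDisjointTris G T) (fun T => T.card)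
    ⟨∅, by
      rw [Finset.mem_filter]
      exact ⟨Finset.mem_univ _, fun t ht => absurd ht (Finset.notMem_empty _),
        fun t ht => absurd ht (Finset.notMem_empty _)⟩⟩
  rw [Finset.mem_filter] at hT
  refine ⟨T, hT.2, ?_⟩
  by_contra hcon
  push Not at hcon
  set S : Finset (Sym2 (Fin n)) := T.biUnion (fun t => t.offDiag.image (fun p => s(p.1, p.2))) with hS
  have hScard : S.card ≤ T.card * 3 := by
    apply Finset.card_biUnion_le_card_mul
    intro t ht
    rw [card_edges_tri t (hT.2.1 t ht).card_eq]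
  have hlt : (S.card : ℝ) < ε * (n : ℝ) ^ 2 := by
    have : (S.card : ℝ) ≤ T.card * 3 := by exact_mod_cast hScard
    linarith
  have h1 := h S hlt
  unfold SimpleGraph.CliqueFree at h1
  push Not at h1
  obtain ⟨t, ht⟩ := h1
  have hSmem : ∀ s ∈ T, ∀ x ∈ s, ∀ y ∈ s, x ≠ y → s(x, y) ∈ S := by
    intro s hs x hx y hy hxy
    rw [hS, Finset.mem_biUnion]
    refine ⟨s, hs, ?_⟩
    rw [Finset.mem_image]
    exact ⟨(x, y), Finset.mem_offDiag.2 ⟨hx, hy, hxy⟩, rfl⟩
  have hnot : ∀ x ∈ t, ∀ y ∈ t, x ≠ y → s(x, y) ∉ S := by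
    intro x hx y hy hxy
    have := ht.isClique hx hy hxy
    rw [SimpleGraph.deleteEdges_adj] at this
    exact this.2
  have hdis : ∀ s ∈ T, ∀ x y, x ≠ y → ¬ (x ∈ s ∧ y ∈ s ∧ x ∈ t ∧ y ∈ t) := by
    rintro s hs x y hxy ⟨h1, h2, h3, h4⟩
    exact hnot x h3 y h4 hxy (hSmem s hs x h1 y h2 hxy)
  have htT : t ∉ T := by
    intro htT
    have h3 := ht.card_eq
    have h1 : 1 < t.card := by omega
    obtain ⟨x, hx, y, hy, hxy⟩ := Finset.one_lt_card.1 h1
    exact hdis t htT x y hxy ⟨hx, hy, hx, hy⟩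
  have hnew : EdgeDisjointTris G (insert t T) := by
    constructor
    · intro s hs
      rcases Finset.mem_insert.1 hs with rfl | hs
      · rw [SimpleGraph.isNClique_iff, SimpleGraph.isClique_iff]
        refine ⟨?_, ht.card_eq⟩
        intro x hx y hy hxy
        have := ht.isClique hx hy hxy
        rw [SimpleGraph.deleteEdges_adj] at this
        exact this.1
      · exact hT.2.1 s hs
    · intro s hs s' hs' hne x y hxy hall
      rcases Finset.mem_insert.1 hs with h5 | h5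
      · rcases Finset.mem_insert.1 hs' with h6 | h6
        · exact hne (h5.trans h6.symm)
        · rw [h5] at hall
          exact hdis s' h6 x y hxy ⟨hall.2.2.1, hall.2.2.2, hall.1, hall.2.1⟩
      · rcases Finset.mem_insert.1 hs' with h6 | h6
        · rw [h6] at hall
          exact hdis s h5 x y hxy hall
        · exact hT.2.2 s h5 s' h6 hne x y hxy hall
  have h2 := hmax (insert t T) (by rw [Finset.mem_filter]; exact ⟨Finset.mem_univ _, hnew⟩)
  rw [Finset.card_insert_of_notMem htT] at h2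
  omega

lemma far_of_edt {n : ℕ} (G : SimpleGraph (Fin n)) (ε : ℝ) (T : Finset (Finset (Fin n)))
    (hT : EdgeDisjointTris G T) (hc : ε * (n : ℝ) ^ 2 ≤ T.card) : Far G ε := by
  classical
  intro S hS hfree
  have h1 : S.card < T.card := by
    have : (S.card : ℝ) < T.card := lt_of_lt_of_le hS hc
    exact_mod_cast this
  have h2 : ∀ t ∈ T, ∃ e ∈ S, ∃ x ∈ t, ∃ y ∈ t, x ≠ y ∧ e = s(x, y) := by
    intro t ht
    by_contra hcon
    push Not at hcon
    apply hfree t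
    have := hT.1 t ht
    rw [SimpleGraph.isNClique_iff, SimpleGraph.isClique_iff] at this ⊢
    refine ⟨?_, this.2⟩
    intro x hx y hy hxy
    rw [SimpleGraph.deleteEdges_adj]
    exact ⟨this.1 hx hy hxy, fun h => hcon _ h x hx y hy hxy rfl⟩
  have hne0 : Nonempty (Sym2 (Fin n)) := by
    obtain ⟨t, ht⟩ := Finset.card_pos.1 (lt_of_le_of_lt (Nat.zero_le _) h1)
    obtain ⟨e, _⟩ := h2 t ht
    exact ⟨e⟩
  choose! e he using h2
  obtain ⟨s, hs, t, ht, hne, heq⟩ := Finset.exists_ne_map_eq_of_card_lt_of_maps_to h1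
    (fun t ht => Finset.mem_coe.2 (he t (Finset.mem_coe.1 ht)).1)
  obtain ⟨_, x, hx, y, hy, hxy, e1⟩ := he s hs
  obtain ⟨_, x', hx', y', hy', hxy', e2⟩ := he t ht
  rw [e1, e2, Sym2.eq_iff] at heq
  rcases heq with ⟨rfl, rfl⟩ | ⟨rfl, rfl⟩
  · exact hT.2 s hs t ht hne x y hxy ⟨hx, hy, hx', hy'⟩
  · exact hT.2 s hs t ht hne x y hxy ⟨hx, hy, hy', hx'⟩


/-! ### good graphs -/

/-- `G` has positive order and at least `ε |G|²` edge-disjoint triangles -/
def Nice (ε : ℝ) {V : Type} (G : SimpleGraph V) : Prop :=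
  Finite V ∧ Nonempty V ∧ ∃ T, EdgeDisjointTris G T ∧ ε * (Nat.card V : ℝ) ^ 2 ≤ T.card

lemma nice_tens {ε ε' : ℝ} (hε' : 0 ≤ ε') {V W : Type} {G : SimpleGraph V} {H : SimpleGraph W}
    (h : Nice ε G) (h' : Nice ε' H) : Nice (ε * ε') (tens G H) := by
  obtain ⟨h1, h2, T, hT, hc⟩ := h
  obtain ⟨h1', h2', T', hT', hc'⟩ := h'
  obtain ⟨T'', hT'', hc''⟩ := edt_tens hT hT'
  refine ⟨inferInstance, inferInstance, T'', hT'', ?_⟩
  rw [hc'', Nat.card_prod]
  push_cast
  calc ε * ε' * ((Nat.card V : ℝ) * (Nat.card W : ℝ)) ^ 2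
      = (ε * (Nat.card V : ℝ) ^ 2) * (ε' * (Nat.card W : ℝ) ^ 2) := by ring
    _ ≤ (T.card : ℝ) * (T'.card : ℝ) :=
        mul_le_mul hc hc' (by positivity) (Nat.cast_nonneg _)

/-- powers -/
lemma nice_pow {ε : ℝ} (hε : 0 ≤ ε) {V : Type} {G : SimpleGraph V} (h : Nice ε G) (k : ℕ) (hk : 1 ≤ k) :
    ∃ (W : Type) (H : SimpleGraph W), Nice (ε ^ k) H ∧
      ∀ (κ : ℕ) (F : SimpleGraph (Fin κ)) (c : ℝ), (hc F G : ℝ) ≤ c * (Nat.card V : ℝ) ^ κ →
        (hc F H : ℝ) ≤ c ^ k * (Nat.card W : ℝ) ^ κ := by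
  induction k, hk using Nat.le_induction with
  | base =>
    refine ⟨V, G, by rwa [pow_one], ?_⟩
    intro κ F c hF
    rwa [pow_one]
  | succ k hk ih =>
    obtain ⟨W, H, hN, hF⟩ := ih
    refine ⟨W × V, tens H G, ?_, ?_⟩
    · rw [pow_succ]
      exact nice_tens hε hN h
    · intro κ F c hFc
      have h1 := hF κ F c hFc
      rw [hc_tens, Nat.card_prod]
      push_cast
      have h0 : (0:ℝ) ≤ c ^ k * (Nat.card W : ℝ) ^ κ := le_trans (Nat.cast_nonneg _) h1
      calc (hc F H : ℝ) * (hc F G : ℝ) ≤ (c ^ k * (Nat.card W : ℝ) ^ κ) * (c * (Nat.card V : ℝ) ^ κ) :=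
            mul_le_mul h1 hFc (Nat.cast_nonneg _) h0
        _ = c ^ (k + 1) * ((Nat.card W : ℝ) * (Nat.card V : ℝ)) ^ κ := by ring

lemma exists_pow {a b : ℝ} (ha : 0 < a) (hab : a ≤ b) (hb : b < 1) :
    ∃ k : ℕ, 1 ≤ k ∧ b ^ k ≤ a ∧ a ^ 2 ≤ b ^ k := by
  have hb0 : 0 < b := lt_of_lt_of_le ha hab
  have hex : ∃ k : ℕ, b ^ k ≤ a := by
    obtain ⟨k, hk⟩ := exists_pow_lt_of_lt_one ha hb
    exact ⟨k, hk.le⟩
  classical
  refine ⟨Nat.find hex, ?_, Nat.find_spec hex, ?_⟩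
  · rw [Nat.one_le_iff_ne_zero]
    intro h0
    have := Nat.find_spec hex
    rw [h0, pow_zero] at this
    linarith
  · have h1 : 1 ≤ Nat.find hex := by
      rw [Nat.one_le_iff_ne_zero]
      intro h0
      have := Nat.find_spec hex
      rw [h0, pow_zero] at this
      linarith
    have h2 := Nat.find_min hex (m := Nat.find hex - 1) (by omega)
    push Not at h2
    obtain ⟨l, hl⟩ : ∃ l, Nat.find hex = l + 1 := ⟨_, (Nat.sub_add_cancel h1).symm⟩
    rw [hl] at h2 ⊢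
    rw [Nat.add_sub_cancel] at h2
    rw [pow_succ]
    calc a ^ 2 = a * a := sq a
      _ ≤ b ^ l * b := mul_le_mul h2.le hab ha.le (by positivity)

/-- the one-sided combination -/
lemma combine_le {D : ℕ} {ε₁ ε₂ : ℝ} (h1 : 0 < ε₁) (h12 : ε₁ ≤ ε₂) (h2 : ε₂ ≤ 1 / 2) {V W : Type}
    {G : SimpleGraph V} {H : SimpleGraph W} (hG : Nice ε₁ G) (hH : Nice ε₂ H) :
    ∃ (U : Type) (K : SimpleGraph U) (ε : ℝ), 0 < ε ∧ ε ≤ 1 / 2 ∧ Nice ε K ∧
      ∀ (κ : ℕ) (F : SimpleGraph (Fin κ)),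
        ((hc F G : ℝ) ≤ ε₁ ^ (3 * D) * (Nat.card V : ℝ) ^ κ ∨
          (hc F H : ℝ) ≤ ε₂ ^ (3 * D) * (Nat.card W : ℝ) ^ κ) →
        (hc F K : ℝ) ≤ ε ^ D * (Nat.card U : ℝ) ^ κ := by
  obtain ⟨k, hk1, hk2, hk3⟩ := exists_pow h1 h12 (by linarith)
  have hε₂ : 0 < ε₂ := by linarith
  obtain ⟨W', H', hN, hF'⟩ := nice_pow hε₂.le hH k hk1
  have hN0 := hN
  have hG0 := hG
  obtain ⟨f1, f2, -⟩ := hG0
  obtain ⟨f1', f2', -⟩ := hN0
  refine ⟨V × W', tens G H', ε₁ * ε₂ ^ k, by positivity, ?_, nice_tens (by positivity) hG hN, ?_⟩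
  · have : ε₁ * ε₂ ^ k ≤ ε₁ * 1 := by
      apply mul_le_mul_of_nonneg_left _ h1.le
      exact pow_le_one₀ hε₂.le (by linarith)
    linarith
  · intro κ F hF
    have hlow : ε₁ ^ 3 ≤ ε₁ * ε₂ ^ k := by
      calc ε₁ ^ 3 = ε₁ * ε₁ ^ 2 := by ring
        _ ≤ ε₁ * ε₂ ^ k := mul_le_mul_of_nonneg_left hk3 h1.le
    have hpow : ε₁ ^ (3 * D) ≤ (ε₁ * ε₂ ^ k) ^ D := by
      rw [pow_mul]
      exact pow_le_pow_left₀ (by positivity) hlow D
    rw [hc_tens, Nat.card_prod]
    push_cast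
    have t1 : (hc F G : ℝ) ≤ (Nat.card V : ℝ) ^ κ := by
      have := hc_le F G
      rw [Nat.card_eq_fintype_card (α := Fin κ), Fintype.card_fin] at this
      exact_mod_cast this
    have t2 : (hc F H' : ℝ) ≤ (Nat.card W' : ℝ) ^ κ := by
      have := hc_le F H'
      rw [Nat.card_eq_fintype_card (α := Fin κ), Fintype.card_fin] at this
      exact_mod_cast this
    rcases hF with hF | hF
    · calc (hc F G : ℝ) * (hc F H' : ℝ) ≤ (ε₁ ^ (3 * D) * (Nat.card V : ℝ) ^ κ) * (Nat.card W' : ℝ) ^ κ :=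
            mul_le_mul hF t2 (Nat.cast_nonneg _) (by positivity)
        _ = ε₁ ^ (3 * D) * ((Nat.card V : ℝ) * (Nat.card W' : ℝ)) ^ κ := by ring
        _ ≤ (ε₁ * ε₂ ^ k) ^ D * ((Nat.card V : ℝ) * (Nat.card W' : ℝ)) ^ κ :=
            mul_le_mul_of_nonneg_right hpow (by positivity)
    · have h3 := hF' κ F _ hF
      have h4 : (ε₂ ^ (3 * D)) ^ k ≤ ε₁ ^ (3 * D) := by
        rw [← pow_mul, mul_comm (3 * D) k, pow_mul]
        exact pow_le_pow_left₀ (by positivity) hk2 _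
      calc (hc F G : ℝ) * (hc F H' : ℝ) ≤
            (Nat.card V : ℝ) ^ κ * ((ε₂ ^ (3 * D)) ^ k * (Nat.card W' : ℝ) ^ κ) :=
            mul_le_mul t1 h3 (Nat.cast_nonneg _) (by positivity)
        _ = (ε₂ ^ (3 * D)) ^ k * ((Nat.card V : ℝ) * (Nat.card W' : ℝ)) ^ κ := by ring
        _ ≤ ε₁ ^ (3 * D) * ((Nat.card V : ℝ) * (Nat.card W' : ℝ)) ^ κ :=
            mul_le_mul_of_nonneg_right h4 (by positivity)
        _ ≤ (ε₁ * ε₂ ^ k) ^ D * ((Nat.card V : ℝ) * (Nat.card W' : ℝ)) ^ κ :=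
            mul_le_mul_of_nonneg_right hpow (by positivity)

lemma combine {D : ℕ} {ε₁ ε₂ : ℝ} (h1 : 0 < ε₁) (h1' : ε₁ ≤ 1 / 2) (h2 : 0 < ε₂) (h2' : ε₂ ≤ 1 / 2)
    {V W : Type} {G : SimpleGraph V} {H : SimpleGraph W} (hG : Nice ε₁ G) (hH : Nice ε₂ H) :
    ∃ (U : Type) (K : SimpleGraph U) (ε : ℝ), 0 < ε ∧ ε ≤ 1 / 2 ∧ Nice ε K ∧
      ∀ (κ : ℕ) (F : SimpleGraph (Fin κ)),
        ((hc F G : ℝ) ≤ ε₁ ^ (3 * D) * (Nat.card V : ℝ) ^ κ ∨
          (hc F H : ℝ) ≤ ε₂ ^ (3 * D) * (Nat.card W : ℝ) ^ κ) →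
        (hc F K : ℝ) ≤ ε ^ D * (Nat.card U : ℝ) ^ κ := by
  rcases le_total ε₁ ε₂ with h | h
  · exact combine_le h1 h h2' hG hH
  · obtain ⟨U, K, ε, e1, e2, e3, e4⟩ := combine_le (D := D) h2 h h1' hH hG
    exact ⟨U, K, ε, e1, e2, e3, fun κ F hF => e4 κ F hF.symm⟩

/-- non-abundant graphs -/
lemma base {k : ℕ} (F : SimpleGraph (Fin k)) (hF : ¬ Abundant F) (D : ℕ) :
    ∃ (V : Type) (G : SimpleGraph V) (ε : ℝ), 0 < ε ∧ ε ≤ 1 / 2 ∧ Nice ε G ∧
      (hc (core F) G : ℝ) ≤ ε ^ D * (Nat.card V : ℝ) ^ (Nat.card (sup F)) := by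
  classical
  obtain ⟨a, ha⟩ : ∃ a : ℕ, (k.factorial : ℝ) + 1 ≤ 2 ^ a := by
    obtain ⟨a, ha⟩ := pow_unbounded_of_one_lt ((k.factorial : ℝ) + 1) (by norm_num : (1:ℝ) < 2)
    exact ⟨a, ha.le⟩
  unfold Abundant at hF
  push Not at hF
  obtain ⟨ε, hε0, hε1, hε⟩ := hF ((3 * D + a + 1 : ℕ) : ℝ) (by positivity)
  set δ : ℝ := ε ^ (3 * D + a + 1) with hδ
  have hδ0 : 0 < δ := by positivity
  obtain ⟨n₀, hn₀⟩ := exists_nat_gt ((k : ℝ) ^ 2 / δ)
  obtain ⟨n, hn, G, hfar, hcopy⟩ := hε (n₀ + 1)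
  rw [Real.rpow_natCast, ← hδ] at hcopy
  have hn1 : 1 ≤ n := by omega
  have hnpos : (0:ℝ) < n := by exact_mod_cast hn1
  -- `ε ≤ 1/2`
  have hhalf : ε ≤ 1 / 2 := by
    by_contra hcon
    push Not at hcon
    have h1 := hfar G.edgeFinset ?_
    · apply h1
      have : G.deleteEdges (G.edgeFinset : Set (Sym2 (Fin n))) = ⊥ := by
        ext x y
        simp
      rw [this]
      exact SimpleGraph.cliqueFree_bot (by norm_num)
    · have h2 := G.card_edgeFinset_le_card_choose_two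
      rw [Fintype.card_fin] at h2
      have h3 : (G.edgeFinset.card : ℝ) ≤ (n.choose 2 : ℕ) := by exact_mod_cast h2
      rw [Nat.cast_choose_two] at h3
      nlinarith
  obtain ⟨T, hT, hTc⟩ := greedy G ε hfar
  refine ⟨Fin n, G, ε / 3, by positivity, by linarith, ⟨inferInstance, ⟨⟨0, hn1⟩⟩, T, hT, ?_⟩, ?_⟩
  · rw [Nat.card_eq_fintype_card, Fintype.card_fin]
    linarith
  · have h1 := hc_le_copy F G
    have h2 := hc_core F G
    rw [Nat.card_eq_fintype_card (α := Fin n), Fintype.card_fin] at h2 ⊢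
    set κ := Nat.card (sup F) with hκ
    set κ' := Nat.card ((sup F)ᶜ : Set (Fin k)) with hκ'
    have hsum : κ + κ' = k := by
      have := Nat.card_congr (Equiv.Set.sumCompl (sup F))
      rw [Nat.card_sum, Nat.card_eq_fintype_card (α := Fin k), Fintype.card_fin] at this
      exact this
    -- the upper bound on all homomorphisms
    have h3 : (hc F G : ℝ) ≤ (k.factorial + 1) * δ * (n : ℝ) ^ k := by
      have e1 : (hc F G : ℝ) ≤ k.factorial * (G.copyCount F : ℝ) + (k:ℝ) ^ 2 * (n:ℝ) ^ (k - 1) := by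
        exact_mod_cast h1
      have e2 : (k:ℝ) ^ 2 * (n:ℝ) ^ (k - 1) ≤ δ * (n : ℝ) ^ k := by
        rcases Nat.eq_zero_or_pos k with rfl | hk
        · simp
          positivity
        · have e3 : (n:ℝ) ^ k = n * (n:ℝ) ^ (k - 1) := by
            rw [← pow_succ']; congr 1; omega
          rw [e3, ← mul_assoc]
          apply mul_le_mul_of_nonneg_right _ (by positivity)
          have e4 : (k:ℝ) ^ 2 / δ ≤ n := by
            have : (n₀ : ℝ) ≤ n := by
              have : n₀ ≤ n := by omega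
              exact_mod_cast this
            linarith
          rw [div_le_iff₀ hδ0] at e4
          linarith
      have e5 : (k.factorial : ℝ) * (G.copyCount F : ℝ) ≤ k.factorial * (δ * (n:ℝ) ^ k) :=
        mul_le_mul_of_nonneg_left hcopy.le (Nat.cast_nonneg _)
      linarith
    have h4 : ((k.factorial : ℝ) + 1) * δ ≤ (ε / 3) ^ D := by
      have e1 : ((k.factorial : ℝ) + 1) * ε ^ a ≤ 1 := by
        calc ((k.factorial : ℝ) + 1) * ε ^ a ≤ 2 ^ a * (1 / 2) ^ a :=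
              mul_le_mul ha (pow_le_pow_left₀ hε0.le hhalf a) (by positivity) (by positivity)
          _ = 1 := by rw [← mul_pow]; norm_num
      have e2 : ε ^ (3 * D) ≤ (ε / 3) ^ D := by
        rw [pow_mul]
        apply pow_le_pow_left₀ (by positivity)
        nlinarith [mul_pos hε0 hε0, mul_nonneg hε0.le (sub_nonneg.2 hhalf),
          mul_nonneg (mul_nonneg hε0.le hε0.le) (sub_nonneg.2 hhalf)]
      have e3 : δ = ε ^ (3 * D) * ε ^ a * ε := by rw [hδ]; ring
      rw [e3]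
      calc ((k.factorial : ℝ) + 1) * (ε ^ (3 * D) * ε ^ a * ε)
          = (((k.factorial : ℝ) + 1) * ε ^ a) * (ε ^ (3 * D)) * ε := by ring
        _ ≤ 1 * ε ^ (3 * D) * 1 := by
            apply mul_le_mul _ hε1.le hε0.le (by positivity)
            exact mul_le_mul_of_nonneg_right e1 (by positivity)
        _ = ε ^ (3 * D) := by ring
        _ ≤ _ := e2
    have h5 : (hc (core F) G : ℝ) * (n:ℝ) ^ κ' ≤ ((ε / 3) ^ D * (n:ℝ) ^ κ) * (n:ℝ) ^ κ' := by
      have e1 : (hc F G : ℝ) = (hc (core F) G : ℝ) * (n:ℝ) ^ κ' := by exact_mod_cast h2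
      rw [← e1, mul_assoc, ← pow_add, hsum]
      exact h3.trans (mul_le_mul_of_nonneg_right h4 (by positivity))
    exact le_of_mul_le_mul_right h5 (by positivity)

/-- index set of types with at most `K` non-isolated vertices -/
abbrev Idx (K : ℕ) := Σ κ : Fin (K + 1), SimpleGraph (Fin κ.1)

lemma family (𝓕 : Set (Σ k : ℕ, SimpleGraph (Fin k))) (h𝓕 : ∀ F ∈ 𝓕, ¬ Abundant F.2) (K : ℕ)
    (A : Finset (Idx K)) : ∀ D : ℕ, ∃ (V : Type) (G : SimpleGraph V) (ε : ℝ), 0 < ε ∧ ε ≤ 1 / 2 ∧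
      Nice ε G ∧ ∀ i ∈ A, (∃ F ∈ 𝓕, Nonempty (core F.2 ≃g i.2)) →
        (hc i.2 G : ℝ) ≤ ε ^ D * (Nat.card V : ℝ) ^ i.1.1 := by
  classical
  induction A using Finset.induction_on with
  | empty =>
    intro D
    obtain ⟨T, hT, hTc⟩ := edt_K3 0
    refine ⟨_, K3 0, 1 / 9, by norm_num, by norm_num, ⟨inferInstance, inferInstance, T, hT, ?_⟩, ?_⟩
    · rw [hTc, Nat.card_eq_fintype_card, Fintype.card_prod, Fintype.card_fin, ZMod.card]
      norm_num
    · intro i hi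
      exact absurd hi (Finset.notMem_empty _)
  | insert j A hj ih =>
    intro D
    obtain ⟨V, G, ε₁, h1, h1', hN, hA⟩ := ih (3 * D)
    by_cases hgood : ∃ F ∈ 𝓕, Nonempty (core F.2 ≃g j.2)
    · obtain ⟨F, hF, ⟨e⟩⟩ := hgood
      obtain ⟨W, H, ε₂, h2, h2', hN', hb⟩ := base F.2 (h𝓕 F hF) (3 * D)
      obtain ⟨U, K', ε, h3, h3', hN'', hc⟩ := combine (D := D) h1 h1' h2 h2' hN hN'
      refine ⟨U, K', ε, h3, h3', hN'', ?_⟩
      intro i hi hex
      rcases Finset.mem_insert.1 hi with rfl | hi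
      · apply hc
        right
        have hk : Nat.card (sup F.2) = i.1.1 := by
          have := Nat.card_congr e.toEquiv
          rw [this, Nat.card_eq_fintype_card, Fintype.card_fin]
        rw [← hc_dom _ _ e, ← hk]
        exact hb
      · exact hc _ _ (Or.inl (hA i hi hex))
    · obtain ⟨U, K', ε, h3, h3', hN'', hc⟩ := combine (D := D) h1 h1' h1 h1' hN hN
      refine ⟨U, K', ε, h3, h3', hN'', ?_⟩
      intro i hi hex
      rcases Finset.mem_insert.1 hi with rfl | hi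
      · exact absurd hex hgood
      · exact hc _ _ (Or.inl (hA i hi hex))


theorem hard_direction (𝓕 : Set (Σ k : ℕ, SimpleGraph (Fin k))) (h𝓕 : ∀ F ∈ 𝓕, ¬ Abundant F.2) :
    ¬ FamilyAbundant 𝓕 := by
  classical
  rintro ⟨C, hC, h⟩
  set c := ⌈C⌉₊ with hc
  have hCc : C ≤ c := Nat.le_ceil C
  set K := 3 * c with hK
  obtain ⟨V, G, ε₀, h0, h0', hN, hA⟩ := family 𝓕 h𝓕 K univ (15 * c + 1)
  -- the padding factor
  set M := ⌈9 / ε₀⌉₊ with hM
  have hM1 : 9 / ε₀ ≤ M := Nat.le_ceil _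
  have h9 : 18 ≤ 9 / ε₀ := by
    rw [le_div_iff₀ h0]; linarith
  have hM2 : (M : ℝ) ≤ 18 / ε₀ := by
    have h1 := (Nat.ceil_lt_add_one (by positivity : 0 ≤ 9 / ε₀)).le
    have h2 : 18 / ε₀ = 9 / ε₀ + 9 / ε₀ := by ring
    rw [h2]; linarith
  have hM18 : (18:ℝ) ≤ M := h9.trans hM1
  have hM0 : (0:ℝ) < M := by linarith
  have hMn : 18 ≤ M := by exact_mod_cast hM18
  set ε := ε₀ / (9 * (M:ℝ) ^ 2) with hε
  have hε0 : 0 < ε := by positivity
  have hε1 : ε < 1 := by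
    rw [hε, div_lt_one (by positivity)]
    nlinarith
  -- two lower bounds on `ε`
  have hlow1 : 1 / (M:ℝ) ^ 3 ≤ ε := by
    rw [hε, div_le_div_iff₀ (by positivity) (by positivity)]
    have h1 : 9 ≤ M * ε₀ := by
      rw [div_le_iff₀ h0] at hM1; linarith
    have h2 : 9 * (M:ℝ) ^ 2 ≤ (M * ε₀) * (M:ℝ) ^ 2 := mul_le_mul_of_nonneg_right h1 (by positivity)
    calc 1 * (9 * (M:ℝ) ^ 2) = 9 * (M:ℝ) ^ 2 := one_mul _
      _ ≤ (M * ε₀) * (M:ℝ) ^ 2 := h2
      _ = ε₀ * (M:ℝ) ^ 3 := by ring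
  have hlow2 : ε₀ ^ 15 ≤ ε := by
    rw [hε, le_div_iff₀ (by positivity)]
    have h1 : (M:ℝ) * ε₀ ≤ 18 := by
      rw [le_div_iff₀ h0] at hM2; exact hM2
    have h2 : ((M:ℝ) * ε₀) ^ 2 ≤ 18 ^ 2 := pow_le_pow_left₀ (by positivity) h1 2
    have h3 : ε₀ ^ 12 ≤ (1 / 2) ^ 12 := pow_le_pow_left₀ h0.le h0' 12
    calc ε₀ ^ 15 * (9 * (M:ℝ) ^ 2) = 9 * ε₀ * (ε₀ ^ 12 * ((M:ℝ) * ε₀) ^ 2) := by ring
      _ ≤ 9 * ε₀ * ((1 / 2) ^ 12 * 18 ^ 2) := by
          apply mul_le_mul_of_nonneg_left _ (by positivity)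
          exact mul_le_mul h3 h2 (by positivity) (by positivity)
      _ ≤ ε₀ := by norm_num; linarith
  obtain ⟨n₀, hn₀⟩ := h ε hε0 hε1
  -- the graph
  obtain ⟨f1, f2, T, hT, hTc⟩ := hN
  obtain ⟨T₁, hT₁, hT₁c⟩ := edt_K3 n₀
  obtain ⟨T₂, hT₂, hT₂c⟩ := edt_tens hT hT₁
  set V₁ := V × (Fin 3 × ZMod (n₀ + 1)) with hV₁
  set G₁ : SimpleGraph V₁ := tens G (K3 n₀) with hG₁
  set n₁ := Nat.card V₁ with hn₁
  have hcardV : 1 ≤ Nat.card V := Nat.card_pos
  have hn₁' : n₁ = Nat.card V * (3 * (n₀ + 1)) := by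
    rw [hn₁, hV₁, Nat.card_prod, Nat.card_eq_fintype_card (α := Fin 3 × ZMod (n₀ + 1)),
      Fintype.card_prod, Fintype.card_fin, ZMod.card]
  have hn₁pos : 1 ≤ n₁ := Nat.card_pos
  set N := M * n₁ with hNdef
  have hNge : n₀ ≤ N := by
    have h1 : n₀ ≤ n₁ := by
      rw [hn₁']; nlinarith
    rw [hNdef]; nlinarith
  let V₂ := V₁ ⊕ Fin ((M - 1) * n₁)
  have hcard₂ : Nat.card V₂ = N := by
    simp only [V₂]
    rw [Nat.card_sum, Nat.card_eq_fintype_card (α := Fin _), Fintype.card_fin, ← hn₁, hNdef]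
    have : M = (M - 1) + 1 := by omega
    nth_rewrite 2 [this]
    ring
  let G₂ : SimpleGraph V₂ := G₁ ⊕g (⊥ : SimpleGraph (Fin ((M - 1) * n₁)))
  let e : V₂ ≃ Fin N := Finite.equivFinOfCardEq hcard₂
  let G₃ : SimpleGraph (Fin N) := G₂.comap e.symm
  have hadj : ∀ a b, G₂.Adj a b ↔ G₃.Adj (e a) (e b) := by
    intro a b
    simp [G₃]
  obtain ⟨T₃, hT₃, hT₃c⟩ := edt_map (G := G₁) (H := G₃) (Function.Embedding.inl.trans e.toEmbedding)
    (fun a b hab => (hadj _ _).1 (by simpa [G₂] using hab)) hT₂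
  have hTbig : ε * (N : ℝ) ^ 2 ≤ T₃.card := by
    rw [hT₃c, hT₂c, hT₁c, hNdef, hn₁', hε]
    push_cast
    have e1 : ε₀ / (9 * (M:ℝ) ^ 2) * ((M:ℝ) * ((Nat.card V : ℝ) * (3 * ((n₀:ℝ) + 1)))) ^ 2 =
        (ε₀ * (Nat.card V : ℝ) ^ 2) * ((n₀:ℝ) + 1) ^ 2 := by
      field_simp
      ring
    rw [e1]
    exact mul_le_mul_of_nonneg_right hTc (by positivity)
  obtain ⟨F, hF, hcopy⟩ := hn₀ N hNge G₃ ⟨T₃, hT₃, hTbig⟩
  obtain ⟨k, F⟩ := F
  simp only at hcopy
  -- bound the copies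
  set κ := Nat.card (sup F) with hκ
  set κ' := Nat.card ((sup F)ᶜ : Set (Fin k)) with hκ'
  have hsum : κ + κ' = k := by
    have := Nat.card_congr (Equiv.Set.sumCompl (sup F))
    rw [Nat.card_sum, Nat.card_eq_fintype_card (α := Fin k), Fintype.card_fin] at this
    exact this
  have hb1 : (G₃.copyCount F : ℝ) ≤ (FamilyAbundance.hc (core F) G₁ : ℝ) * (N : ℝ) ^ κ' := by
    have e1 := copy_le_hc F G₃
    have e2 := hc_core F G₃
    have e3 : FamilyAbundance.hc (core F) G₃ = FamilyAbundance.hc (core F) G₂ :=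
      (hc_cod (core F) G₂ G₃ e hadj).symm
    have e4 : FamilyAbundance.hc (core F) G₂ ≤ FamilyAbundance.hc (core F) G₁ := hc_pad F G₁
    rw [Nat.card_eq_fintype_card (α := Fin N), Fintype.card_fin, ← hκ', e3] at e2
    have e5 : G₃.copyCount F ≤ FamilyAbundance.hc (core F) G₁ * N ^ κ' := by
      rw [e2] at e1
      exact e1.trans (Nat.mul_le_mul_right _ e4)
    exact_mod_cast e5
  have hNpos : (0:ℝ) < N := by
    have : 1 ≤ N := by rw [hNdef]; nlinarith
    exact_mod_cast this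
  have hb2 : ε ^ c * (N:ℝ) ^ κ ≤ (FamilyAbundance.hc (core F) G₁ : ℝ) := by
    have e1 : ε ^ c ≤ ε ^ C := by
      rw [← Real.rpow_natCast]
      exact Real.rpow_le_rpow_of_exponent_ge hε0 hε1.le hCc
    have e2 : (ε ^ c * (N:ℝ) ^ κ) * (N:ℝ) ^ κ' ≤
        (FamilyAbundance.hc (core F) G₁ : ℝ) * (N : ℝ) ^ κ' := by
      rw [mul_assoc, ← pow_add, hsum]
      exact ((mul_le_mul_of_nonneg_right e1 (by positivity)).trans hcopy).trans hb1
    exact le_of_mul_le_mul_right e2 (by positivity)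
  have hNn₁ : (N:ℝ) = M * n₁ := by rw [hNdef]; push_cast; ring
  have hn₁R : (0:ℝ) < n₁ := by exact_mod_cast hn₁pos
  rcases Nat.lt_or_ge K κ with hlarge | hsmall
  · -- many non-isolated vertices
    have e1 : (FamilyAbundance.hc (core F) G₁ : ℝ) ≤ (n₁:ℝ) ^ κ := by
      have := hc_le (core F) G₁
      rw [← hκ, ← hn₁] at this
      exact_mod_cast this
    have e2 : ε ^ c * (M:ℝ) ^ κ ≤ 1 := by
      have e3 : (ε ^ c * (M:ℝ) ^ κ) * (n₁:ℝ) ^ κ ≤ 1 * (n₁:ℝ) ^ κ := by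
        rw [one_mul, mul_assoc, ← mul_pow, ← hNn₁]
        exact hb2.trans e1
      exact le_of_mul_le_mul_right e3 (by positivity)
    have e4 : (1 / (M:ℝ) ^ 3) ^ c ≤ ε ^ c := pow_le_pow_left₀ (by positivity) hlow1 c
    have e5 : (1 / (M:ℝ) ^ 3) ^ c * (M:ℝ) ^ κ ≤ 1 :=
      (mul_le_mul_of_nonneg_right e4 (by positivity)).trans e2
    have e6 : (M:ℝ) ^ κ = (M:ℝ) ^ (3 * c) * (M:ℝ) ^ (κ - 3 * c) := by
      rw [← pow_add]; congr 1; omega
    have e7 : (1 / (M:ℝ) ^ 3) ^ c * (M:ℝ) ^ κ = (M:ℝ) ^ (κ - 3 * c) := by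
      rw [e6, div_pow, one_pow, ← pow_mul]
      field_simp
    rw [e7] at e5
    have e8 : (1:ℝ) < (M:ℝ) ^ (κ - 3 * c) := one_lt_pow₀ (by linarith) (by omega)
    linarith
  · -- few non-isolated vertices
    let e' : sup F ≃ Fin κ := Finite.equivFinOfCardEq rfl
    let F' : SimpleGraph (Fin κ) := (core F).comap e'.symm
    have iso : core F ≃g F' := ⟨e', by intro a b; simp [F']⟩
    have e1 := hA ⟨⟨κ, by omega⟩, F'⟩ (Finset.mem_univ _) ⟨⟨k, F⟩, hF, ⟨iso⟩⟩
    simp only at e1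
    have e2 : (FamilyAbundance.hc (core F) G₁ : ℝ) ≤ ε₀ ^ (15 * c + 1) * (n₁:ℝ) ^ κ := by
      rw [hc_dom _ _ iso G₁, hG₁, hc_tens, hn₁']
      push_cast
      have e3 : (FamilyAbundance.hc F' (K3 n₀) : ℝ) ≤ ((3:ℝ) * ((n₀:ℝ) + 1)) ^ κ := by
        have := hc_le F' (K3 n₀)
        rw [Nat.card_eq_fintype_card (α := Fin κ), Fintype.card_fin,
          Nat.card_eq_fintype_card (α := Fin 3 × ZMod (n₀ + 1)), Fintype.card_prod, Fintype.card_fin,
          ZMod.card] at this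
        exact_mod_cast this
      calc (FamilyAbundance.hc F' G : ℝ) * (FamilyAbundance.hc F' (K3 n₀) : ℝ)
          ≤ (ε₀ ^ (15 * c + 1) * (Nat.card V : ℝ) ^ κ) * ((3:ℝ) * ((n₀:ℝ) + 1)) ^ κ :=
            mul_le_mul e1 e3 (Nat.cast_nonneg _) (by positivity)
        _ = _ := by rw [mul_pow (Nat.card V : ℝ)]; ring
    have e4 : ε ^ c ≤ ε₀ ^ (15 * c + 1) := by
      have e5 : ε ^ c * (N:ℝ) ^ κ ≤ ε₀ ^ (15 * c + 1) * (N:ℝ) ^ κ := by
        refine (hb2.trans e2).trans ?_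
        apply mul_le_mul_of_nonneg_left _ (by positivity)
        apply pow_le_pow_left₀ hn₁R.le
        rw [hNn₁]
        nlinarith
      exact le_of_mul_le_mul_right e5 (by positivity)
    have e5 : ε₀ ^ (15 * c) ≤ ε ^ c := by
      rw [pow_mul]
      exact pow_le_pow_left₀ (by positivity) hlow2 c
    have e6 : ε₀ ^ (15 * c + 1) < ε₀ ^ (15 * c) := by
      rw [pow_succ]
      have : 0 < ε₀ ^ (15 * c) := by positivity
      nlinarith
    linarith

/-- A family of graphs is triangle-abundant iff some member is. -/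
theorem result : ∀ 𝓕 : Set (Σ k : ℕ, SimpleGraph (Fin k)),
    FamilyAbundant 𝓕 ↔ ∃ F ∈ 𝓕, Abundant F.2 := by
  intro 𝓕
  constructor
  · intro h
    by_contra hcon
    push Not at hcon
    exact hard_direction 𝓕 hcon h
  · rintro ⟨F, hF, C, hC, h⟩
    refine ⟨C, hC, fun ε h0 h1 => ?_⟩
    obtain ⟨n₀, hn₀⟩ := h ε h0 h1
    refine ⟨n₀, fun n hn G hG => ?_⟩
    obtain ⟨T, hT, hTc⟩ := hG
    exact ⟨F, hF, hn₀ n hn G (far_of_edt G ε T hT hTc)⟩

end Pool.Agent.Results.MP_02fb88_co.FamilyAbundance
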